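import Pool.Agent.Y478.KU.Deg
import Pool.Agent.Helper454.Kauf.Exist10

set_option autoImplicit false

open Pool.Agent.Helper454.Kauf

namespace Pool.Agent.Results.MP_1130ce_gt.UnboundedGap

/-- `Λ` is Kauffman's regular isotopy invariant with values in `ℤ[a^{±1}, z^{±1}]`: it satisfies
Kauffman's rules and `Λ = 1` for the crossingless circle. -/
def IsKauffmanInvariant (Λ : Word → Raz) : Prop := KauffmanRules Λ ∧ Λ circle = 1

/-- `F` is the Kauffman polynomial `F_K(a, z) = a^{-w(K)} Λ_K(a, z)` of the knot with the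
diagram `K`: there are a Kauffman invariant `Λ` and a writhe `t` of `K`, and `F = a^{-t} Λ(K)` for
all of these. -/
def IsKauffmanPolynomialOf (K : Word) (F : Raz) : Prop :=
  (∃ (Λ : Word → Raz) (t : ℤ), IsKauffmanInvariant Λ ∧ HasWrithe K t) ∧
    ∀ (Λ : Word → Raz) (t : ℤ), IsKauffmanInvariant Λ → HasWrithe K t → F = normalised t (Λ K)

/-- `m` is the least exponent of `a` in `F_K(a⁻¹, z)`, for the knot with the diagram `K`. -/
def HasMinDeg (K : Word) (m : ℤ) : Prop :=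
  ∃ F : Raz, IsKauffmanPolynomialOf K F ∧ IsLeast (exponentsInv F) m

theorem hasMinDeg_KN (n : ℕ) : HasMinDeg (Y478.KU.KN n) (3 * n) := by
  refine ⟨normalised (5 * n) (polyK ^ n),
    ⟨⟨Ex.Lam Raz, 5 * n, ⟨Ex.Lam_rules, Ex.Lam_circle⟩, Y478.KU.hasWrithe_KN n⟩, ?_⟩,
    Y478.KU.isLeast_KN n⟩
  intro Λ t hΛ ht
  obtain rfl := Y478.KU.writhe_unique_KN n t ht
  rw [Y478.KU.value_KN Λ hΛ.1 n, hΛ.2, smul_eq_mul, mul_one]

/-- For every `n` there is a knot `K` with unknotting number at most `n` for which the least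
exponent of `a` in `F_K(a⁻¹, z)` is `3 n`. Hence for all real numbers `c < 3` and `C` there is a
knot `K` for which this least exponent is greater than `c u(K) + C`. -/
theorem result :
    (∀ n : ℕ, ∃ K : Word, IsKnot K ∧ HasMinDeg K (3 * n) ∧
      UnknottedBy (unknottingNumber K) K ∧ unknottingNumber K ≤ n) ∧
    (∀ c C : ℝ, c < 3 → ∃ (K : Word) (m : ℤ), IsKnot K ∧ HasMinDeg K m ∧
      UnknottedBy (unknottingNumber K) K ∧ c * (unknottingNumber K : ℝ) + C < (m : ℝ)) := by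
  have h1 : ∀ n : ℕ, ∃ K : Word, IsKnot K ∧ HasMinDeg K (3 * n) ∧
      UnknottedBy (unknottingNumber K) K ∧ unknottingNumber K ≤ n := fun n =>
    ⟨Y478.KU.KN n, Y478.KU.isKnot_KN n, hasMinDeg_KN n, Y478.KU.unknottedBy_unknottingNumber n,
      Y478.KU.unknottingNumber_KN n⟩
  refine ⟨h1, fun c C hc => ?_⟩
  obtain ⟨n, hn⟩ := exists_nat_gt (C / (3 - max c 0))
  obtain ⟨K, k1, k2, k3, k4⟩ := h1 n
  refine ⟨K, 3 * n, k1, k2, k3, ?_⟩
  have hc' : 0 < 3 - max c 0 := by
    rcases max_cases c 0 with h | h <;> linarith [h.1]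
  rw [div_lt_iff₀ hc'] at hn
  have hu : (unknottingNumber K : ℝ) ≤ n := by exact_mod_cast k4
  have hu0 : (0 : ℝ) ≤ unknottingNumber K := Nat.cast_nonneg _
  have e1 : c * (unknottingNumber K : ℝ) ≤ max c 0 * (unknottingNumber K : ℝ) :=
    mul_le_mul_of_nonneg_right (le_max_left _ _) hu0
  have e2 : max c 0 * (unknottingNumber K : ℝ) ≤ max c 0 * n :=
    mul_le_mul_of_nonneg_left hu (le_max_right _ _)
  push_cast
  nlinarith

end Pool.Agent.Results.MP_1130ce_gt.UnboundedGap
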